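import Pool.Agent.Y174.SD.Stm

/-! Job SD-POLE (2412) of project SD (helper174): a derivation which kills a finite system of
parameters and multiplies a nonzero common denominator by a constant has no poles. -/

set_option autoImplicit false
set_option linter.all false

open MvPolynomial Pool.Agent.Y174.SD

namespace Pool.Agent.Y710.SD

section V

variable {R M : Type} [CommRing R] [IsDomain R] [Field M] [Algebra R M] [IsFractionRing R M]

/-- order of `f` at `P` at least `-e` -/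
def V (P : R) (e : ℕ) (f : M) : Prop :=
  ∃ s g : R, ¬ P ∣ s ∧ algebraMap R M s * algebraMap R M P ^ e * f = algebraMap R M g

theorem V_of {P : R} (hP : Prime P) (f : R) : V P 0 (algebraMap R M f) :=
  ⟨1, f, fun h => hP.not_unit (isUnit_of_dvd_one h), by simp⟩

theorem V_add {P : R} (hP : Prime P) {e : ℕ} {f g : M} (hf : V P e f) (hg : V P e g) :
    V P e (f + g) := by
  obtain ⟨s, u, h1, h2⟩ := hf
  obtain ⟨t, v, h3, h4⟩ := hg
  refine ⟨s * t, t * u + s * v, fun h => (hP.dvd_or_dvd h).elim h1 h3, ?_⟩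
  rw [map_mul, map_add, map_mul, map_mul, ← h2, ← h4]
  ring

theorem V_neg {P : R} {e : ℕ} {f : M} (hf : V P e f) : V P e (-f) := by
  obtain ⟨s, u, h1, h2⟩ := hf
  refine ⟨s, -u, h1, ?_⟩
  rw [map_neg, ← h2]
  ring

theorem V_mul {P : R} (hP : Prime P) {e e' : ℕ} {f g : M} (hf : V P e f) (hg : V P e' g) :
    V P (e + e') (f * g) := by
  obtain ⟨s, u, h1, h2⟩ := hf
  obtain ⟨t, v, h3, h4⟩ := hg
  refine ⟨s * t, u * v, fun h => (hP.dvd_or_dvd h).elim h1 h3, ?_⟩
  rw [map_mul, map_mul, ← h2, ← h4, pow_add]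
  ring

theorem V_smul {P : R} (hP : Prime P) {e : ℕ} {f : M} (r : R) (hf : V P e f) :
    V P e (algebraMap R M r * f) := by
  have := V_mul hP (V_of (M := M) hP r) hf
  rwa [zero_add] at this

theorem V_mono {P : R} {e e' : ℕ} (h : e ≤ e') {f : M} (hf : V P e f) : V P e' f := by
  obtain ⟨s, u, h1, h2⟩ := hf
  obtain ⟨k, rfl⟩ := Nat.exists_eq_add_of_le h
  refine ⟨s, P ^ k * u, h1, ?_⟩
  rw [map_mul, map_pow, ← h2, pow_add]
  ring

theorem V_cancel {P : R} (hP : Prime P) {e : ℕ} {f : M} {s : R} (hs : ¬ P ∣ s)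
    (hf : V P e (algebraMap R M s * f)) : V P e f := by
  obtain ⟨t, u, h1, h2⟩ := hf
  refine ⟨t * s, u, fun h => (hP.dvd_or_dvd h).elim h1 hs, ?_⟩
  rw [map_mul, ← h2]
  ring

theorem V_P {P : R} {e : ℕ} {f : M} (hf : V P (e + 1) f) : V P e (algebraMap R M P * f) := by
  obtain ⟨s, u, h1, h2⟩ := hf
  refine ⟨s, u, h1, ?_⟩
  rw [← h2, pow_succ]
  ring

theorem V_zero_of_unit_den [UniqueFactorizationMonoid R] (f : M)
    (h : ∀ P : R, Prime P → V P 0 f) : ∃ p, f = algebraMap R M p := by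
  obtain ⟨p, q, hpq, hf⟩ := IsFractionRing.exists_reduced_fraction (A := R) f
  by_cases hq : IsUnit (q : R)
  · obtain ⟨v, hv⟩ := hq.exists_left_inv
    refine ⟨v * p, ?_⟩
    rw [IsLocalization.mk'_eq_iff_eq_mul] at hf
    have e1 : algebraMap R M v * algebraMap R M (q : R) = 1 := by
      rw [← map_mul, hv, map_one]
    rw [map_mul, hf]
    calc f = (algebraMap R M v * algebraMap R M (q : R)) * f := by rw [e1, one_mul]
      _ = _ := by ring
  · exfalso
    have hq0 : (q : R) ≠ 0 := nonZeroDivisors.coe_ne_zero q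
    obtain ⟨P, hP, hPq⟩ := WfDvdMonoid.exists_irreducible_factor hq hq0
    have hP' : Prime P := UniqueFactorizationMonoid.irreducible_iff_prime.1 hP
    obtain ⟨s, g, h1, h2⟩ := h P hP'
    rw [pow_zero, mul_one] at h2
    rw [IsLocalization.mk'_eq_iff_eq_mul] at hf
    have h3 : s * p = g * q := by
      apply IsFractionRing.injective R M
      rw [map_mul, map_mul, hf, ← h2]
      ring
    have h4 : P ∣ s * p := by
      rw [h3]; exact Dvd.dvd.mul_left hPq _
    rcases hP'.dvd_or_dvd h4 with h5 | h5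
    · exact h1 h5
    · exact hP.not_isUnit (hpq h5 hPq)

end V

theorem t_POLE : S_POLE := by
  intro K M _ _ _ n _ _ a hint D hK ha J hJ0 hJ hl
  set ι := algebraMap (MvPolynomial (Fin n) K) M with hι
  have hinj : Function.Injective ι := IsFractionRing.injective _ M
  -- the coefficients
  set φ : MvPolynomial (Fin n) K →+* MvPolynomial (Fin n) K :=
    (aeval a : MvPolynomial (Fin n) K →ₐ[K] MvPolynomial (Fin n) K).toRingHom with hφ
  have hφC : ∀ c, φ (C c) = C c := fun c => by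
    show aeval a (C c) = C c
    rw [aeval_C]; rfl
  have hφX : ∀ j, φ (X j) = a j := fun j => by
    show aeval a (X j) = a j
    rw [aeval_X]
  have hDφ : ∀ c, ∃ p, D (ι (φ c)) = ι p := by
    intro c
    induction c using MvPolynomial.induction_on with
    | C c =>
      obtain ⟨c', hc⟩ := hK c
      exact ⟨C c', by rw [hφC]; exact hc⟩
    | add p q hp hq =>
      obtain ⟨u, hu⟩ := hp
      obtain ⟨v, hv⟩ := hq
      exact ⟨u + v, by rw [map_add, map_add, map_add, map_add, hu, hv]⟩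
    | mul_X p j hp =>
      obtain ⟨u, hu⟩ := hp
      refine ⟨a j * u, ?_⟩
      rw [map_mul, map_mul, hφX, D.leibniz, ha, hu, smul_zero, zero_add, smul_eq_mul, map_mul]
  by_contra hcon
  push Not at hcon
  obtain ⟨i0, hi0⟩ := hcon
  obtain ⟨P, hP, hPV⟩ : ∃ P : MvPolynomial (Fin n) K, Prime P ∧ ¬ V P 0 (D (ι (X i0))) := by
    by_contra hc
    push Not at hc
    obtain ⟨p, hp⟩ := V_zero_of_unit_den _ hc
    exact hi0 p hp
  obtain ⟨e, Q, hQ, hJe⟩ : ∃ (e : ℕ) (Q : MvPolynomial (Fin n) K), ¬ P ∣ Q ∧ J = P ^ e * Q := by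
    obtain ⟨e, Q, h1, h2⟩ := WfDvdMonoid.max_power_factor hJ0 hP.irreducible
    exact ⟨e, Q, h1, h2⟩
  have hVe : ∀ i, V P e (D (ι (X i))) := by
    intro i
    obtain ⟨p, hp⟩ := hJ i
    refine ⟨Q, p, hQ, ?_⟩
    rw [← hp, hJe, map_mul, map_pow]
    ring
  classical
  have hex : ∃ r, ∀ i, V P r (D (ι (X i))) := ⟨e, hVe⟩
  obtain ⟨r, hr, hmin⟩ : ∃ r, (∀ i, V P r (D (ι (X i)))) ∧
      ∀ r' < r, ¬ ∀ i, V P r' (D (ι (X i))) :=
    ⟨Nat.find hex, Nat.find_spec hex, fun r' h => Nat.find_min hex h⟩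
  have hr0 : r ≠ 0 := by
    rintro rfl
    exact hPV (hr i0)
  obtain ⟨r1, rfl⟩ := Nat.exists_eq_succ_of_ne_zero hr0
  have he0 : e ≠ 0 := by
    rintro rfl
    exact hPV (hVe i0)
  obtain ⟨e1, rfl⟩ := Nat.exists_eq_succ_of_ne_zero he0
  -- (c)
  have hc : ∀ f : MvPolynomial (Fin n) K, V P (r1 + 1) (D (ι f)) := by
    intro f
    induction f using MvPolynomial.induction_on with
    | C c =>
      obtain ⟨c', hc⟩ := hK c
      rw [hc]
      exact V_mono (Nat.zero_le _) (V_of hP _)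
    | add p q hp hq =>
      rw [map_add, map_add]
      exact V_add hP hp hq
    | mul_X p j hp =>
      rw [map_mul, D.leibniz, smul_eq_mul, smul_eq_mul]
      exact V_add hP (V_smul hP _ (hr j)) (V_smul hP _ hp)
  -- (d)
  have hd : V P r1 (D (ι P)) := by
    obtain ⟨l, hl⟩ := hl
    have h1 : ι P ≠ 0 := by
      intro h
      exact hP.ne_zero (hinj (by rw [h, map_zero]))
    have h2 : ((e1 + 1 : ℕ) : M) * ι Q * D (ι P) = ι P * (ι (C l * Q) + -(D (ι Q))) := by
      rw [hJe, map_mul, map_pow, D.leibniz, D.leibniz_pow, smul_eq_mul, smul_eq_mul,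
        smul_eq_mul, nsmul_eq_mul, Nat.succ_sub_one, map_mul, map_mul, map_pow] at hl
      apply mul_left_cancel₀ (pow_ne_zero e1 h1)
      rw [map_mul]
      have h3 : ι P ^ e1 * (((e1 + 1 : ℕ) : M) * ι Q * D (ι P)) =
          ι Q * (((e1 + 1 : ℕ) : M) * (ι P ^ e1 * D (ι P))) := by ring
      rw [h3]
      have h4 : ι Q * (((e1 + 1 : ℕ) : M) * (ι P ^ e1 * D (ι P))) =
        ι (C l) * (ι P ^ (e1 + 1) * ι Q) - ι P ^ (e1 + 1) * D (ι Q) := by
        rw [← hl]; simp only [Nat.succ_eq_add_one]; ring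
      rw [h4]
      ring
    have h3 : V P r1 (ι P * (ι (C l * Q) + -(D (ι Q)))) :=
      V_P (V_add hP (V_mono (Nat.zero_le _) (V_of hP _)) (V_neg (hc Q)))
    rw [← h2] at h3
    have h4 : ((e1 + 1 : ℕ) : M) * ι Q * D (ι P) =
        ι (C ((e1 + 1 : ℕ) : K) * Q) * D (ι P) := by
      rw [map_mul, map_natCast, map_natCast]
    rw [h4] at h3
    refine V_cancel hP (fun h => ?_) h3
    rcases hP.dvd_or_dvd h with h5 | h5
    · have h6 : IsUnit (C ((e1 + 1 : ℕ) : K) : MvPolynomial (Fin n) K) :=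
        (IsUnit.mk0 _ (Nat.cast_ne_zero.2 (Nat.succ_ne_zero e1))).map C
      exact hP.not_unit (isUnit_of_dvd_unit h5 h6)
    · exact hQ h5
  -- (e)
  have hee : ∀ f : MvPolynomial (Fin n) K, P ∣ f → V P r1 (D (ι f)) := by
    rintro f ⟨g, rfl⟩
    rw [map_mul, D.leibniz, smul_eq_mul, smul_eq_mul]
    exact V_add hP (V_P (hc g)) (V_smul hP _ hd)
  refine hmin r1 (Nat.lt_succ_self _) fun i => ?_
  -- (g)
  have hG : ∀ G : Polynomial (MvPolynomial (Fin n) K), ∃ p : MvPolynomial (Fin n) K,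
      D (ι (G.eval₂ φ (X i))) = ι p + ι (G.derivative.eval₂ φ (X i)) * D (ι (X i)) := by
    intro G
    induction G using Polynomial.induction_on' with
    | add p q hp hq =>
      obtain ⟨u, hu⟩ := hp
      obtain ⟨v, hv⟩ := hq
      refine ⟨u + v, ?_⟩
      rw [Polynomial.eval₂_add, map_add, map_add, hu, hv, map_add, Polynomial.derivative_add,
        Polynomial.eval₂_add, map_add]
      ring
    | monomial k c =>
      obtain ⟨u, hu⟩ := hDφ c
      refine ⟨X i ^ k * u, ?_⟩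
      rw [Polynomial.eval₂_monomial, map_mul, D.leibniz, hu, map_pow, D.leibniz_pow,
        Polynomial.derivative_monomial, Polynomial.eval₂_monomial, smul_eq_mul, smul_eq_mul,
        smul_eq_mul, nsmul_eq_mul, map_mul, map_mul, map_mul, map_pow, map_pow, map_mul,
        map_natCast, map_natCast]
      ring
  -- (f)
  obtain ⟨G, ⟨hG1, hG2⟩, hGmin⟩ : ∃ G : Polynomial (MvPolynomial (Fin n) K),
      (P ∣ G.eval₂ φ (X i) ∧ ¬ P ∣ φ G.leadingCoeff) ∧
      ∀ H : Polynomial (MvPolynomial (Fin n) K), (P ∣ H.eval₂ φ (X i) ∧ ¬ P ∣ φ H.leadingCoeff) →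
        G.natDegree ≤ H.natDegree := by
    obtain ⟨G0, h1, h2⟩ := hint i
    have hne : ∃ d, ∃ G : Polynomial (MvPolynomial (Fin n) K),
      (P ∣ G.eval₂ φ (X i) ∧ ¬ P ∣ φ G.leadingCoeff) ∧ G.natDegree = d :=
      ⟨_, G0, ⟨by
        have : G0.eval₂ φ (X i) = 0 := h2
        rw [this]; exact dvd_zero _, by
        rw [h1.leadingCoeff, map_one]
        exact fun h => hP.not_unit (isUnit_of_dvd_one h)⟩, rfl⟩
    obtain ⟨G, h3, h4⟩ := Nat.find_spec hne
    refine ⟨G, h3, fun H hH => ?_⟩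
    rw [h4]
    exact Nat.find_min' hne ⟨H, hH, rfl⟩
  have hdeg : G.natDegree ≠ 0 := by
    intro h0
    apply hG2
    rw [Polynomial.eq_C_of_natDegree_eq_zero h0] at hG1 ⊢
    rw [Polynomial.eval₂_C] at hG1
    rw [Polynomial.leadingCoeff_C]
    exact hG1
  have hder : ¬ P ∣ G.derivative.eval₂ φ (X i) := by
    intro h
    have h1 : G.derivative.natDegree < G.natDegree := Polynomial.natDegree_derivative_lt hdeg
    refine absurd (hGmin G.derivative ⟨h, fun h2 => ?_⟩) (by omega)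
    have h3 : G.derivative.leadingCoeff = G.leadingCoeff * (G.natDegree : MvPolynomial (Fin n) K) := by
      have h4 : G.derivative.natDegree = G.natDegree - 1 := Polynomial.natDegree_derivative G
      rw [Polynomial.leadingCoeff, h4, Polynomial.coeff_derivative, Polynomial.leadingCoeff]
      have h5 : G.natDegree - 1 + 1 = G.natDegree := by omega
      rw [h5]
      have h6 : ((G.natDegree - 1 : ℕ) : MvPolynomial (Fin n) K) + 1 =
          ((G.natDegree - 1 + 1 : ℕ) : MvPolynomial (Fin n) K) := by push_cast; ring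
      rw [h6, h5]
    rw [h3, map_mul, map_natCast] at h2
    rcases hP.dvd_or_dvd h2 with h5 | h5
    · exact hG2 h5
    · have h6 : IsUnit (C ((G.natDegree : ℕ) : K) : MvPolynomial (Fin n) K) :=
        (IsUnit.mk0 _ (Nat.cast_ne_zero.2 hdeg)).map C
      rw [map_natCast] at h6
      exact hP.not_unit (isUnit_of_dvd_unit h5 h6)
  obtain ⟨p, hp⟩ := hG G
  have h1 := hee _ hG1
  rw [hp] at h1
  have h2 : V P r1 (ι (G.derivative.eval₂ φ (X i)) * D (ι (X i))) := by
    have h3 := V_add hP h1 (V_neg (V_mono (Nat.zero_le r1) (V_of (M := M) hP p)))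
    have h4 : ι p + ι (G.derivative.eval₂ φ (X i)) * D (ι (X i)) + -(ι p) =
        ι (G.derivative.eval₂ φ (X i)) * D (ι (X i)) := by ring
    rw [← h4]
    exact h3
  exact V_cancel hP hder h2

end Pool.Agent.Y710.SD
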